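import Pool.Agent.N343.LT.Stm

/-!
# Project LT, part CAU (helper46): the Cauchy determinant in polynomial form
-/

set_option autoImplicit false

namespace Pool.Agent.N46.LT.CAU

open Finset Matrix

/-- the matrix of the products `∏ (x i - y j')` over `j' ≠ j` -/
def Q {R : Type} [CommRing R] {m : ℕ} (x y : Fin m → R) : Matrix (Fin m) (Fin m) R :=
  Matrix.of fun i j => ∏ j' ∈ univ.erase j, (x i - y j')

/-- the sign -/
def eps (m : ℕ) : ℤ := ∏ i : Fin m, ∏ _j ∈ Ioi i, (-1 : ℤ)

theorem eps_or (m : ℕ) : eps m = 1 ∨ eps m = -1 := by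
  have h : IsUnit (eps m) := by
    unfold eps
    simp only [prod_const]
    rw [IsUnit.prod_univ_iff]
    intro i
    exact (isUnit_one.neg).pow _
  exact Int.isUnit_iff.1 h

theorem eps_sq (m : ℕ) : eps m * eps m = 1 := by
  rcases eps_or m with h | h <;> rw [h] <;> norm_num

theorem det_Q {R : Type} [CommRing R] {m : ℕ} (x y : Fin m → R) :
    (Q x y).det = ∑ σ : Equiv.Perm (Fin m), (((Equiv.Perm.sign σ : ℤˣ) : ℤ) : R) *
      ∏ i, ∏ j ∈ univ.erase (σ i), (x i - y j) := by
  rw [← det_transpose, det_apply']
  rfl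

theorem prod_off {R : Type} [CommRing R] {m : ℕ} (y : Fin m → R) :
    ∏ j, ∏ j' ∈ univ.erase j, (y j - y j') =
      (eps m : R) * (vandermonde y).det * (vandermonde y).det := by
  have h1 : ∀ j : Fin m, ∏ j' ∈ univ.erase j, (y j - y j') =
      (∏ j' ∈ Ioi j, (y j - y j')) * ∏ j' ∈ Iio j, (y j - y j') := by
    intro j
    rw [← prod_union]
    · refine prod_congr ?_ fun _ _ => rfl
      ext k
      simp only [mem_erase, mem_univ, and_true, mem_union, mem_Ioi, mem_Iio]
      constructor
      · intro h; exact (lt_or_gt_of_ne h).symm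
      · rintro (h | h)
        · exact h.ne'
        · exact h.ne
    · rw [disjoint_left]
      intro k hk hk'
      rw [mem_Ioi] at hk
      rw [mem_Iio] at hk'
      exact lt_asymm hk hk'
  simp only [h1, prod_mul_distrib]
  have h2 : ∏ j, ∏ j' ∈ Ioi j, (y j - y j') = (eps m : R) * (vandermonde y).det := by
    rw [det_vandermonde]
    unfold eps
    push_cast
    rw [← prod_mul_distrib]
    refine prod_congr rfl fun i _ => ?_
    rw [← prod_mul_distrib]
    refine prod_congr rfl fun j _ => ?_
    ring
  have h3 : ∏ j, ∏ j' ∈ Iio j, (y j - y j') = (vandermonde y).det := by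
    rw [det_vandermonde]
    rw [prod_sigma', prod_sigma']
    refine prod_nbij' (fun p => ⟨p.2, p.1⟩) (fun p => ⟨p.2, p.1⟩) ?_ ?_ ?_ ?_ ?_
    · rintro ⟨a, b⟩ h
      simp only [mem_sigma, mem_univ, true_and, mem_Iio, mem_Ioi] at h ⊢
      exact h
    · rintro ⟨a, b⟩ h
      simp only [mem_sigma, mem_univ, true_and, mem_Iio, mem_Ioi] at h ⊢
      exact h
    · intro _ _; rfl
    · intro _ _; rfl
    · intro _ _; rfl
  rw [h2, h3]

theorem det_Q_dom {R : Type} [CommRing R] [IsDomain R] {m : ℕ} (x y : Fin m → R)
    (hy : Function.Injective y) :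
    (Q x y).det = (eps m : R) * (vandermonde x).det * (vandermonde y).det := by
  rcases Nat.eq_zero_or_pos m with hm | hm
  · subst hm
    simp [eps]
  set q : Fin m → Polynomial R := fun j => ∏ j' ∈ univ.erase j, (Polynomial.X - Polynomial.C (y j'))
    with hq
  have hdeg : ∀ j, (q j).natDegree < m := by
    intro j
    have : (q j).natDegree = (univ.erase j).card := by
      rw [hq]
      simp only
      rw [Polynomial.natDegree_prod_of_monic _ _ fun i _ => Polynomial.monic_X_sub_C _]
      simp
    rw [this, card_erase_of_mem (mem_univ _), card_univ, Fintype.card_fin]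
    omega
  set Co : Matrix (Fin m) (Fin m) R := Matrix.of fun i j => (q j).coeff i with hCo
  have hfac : ∀ v : Fin m → R, Q v y = vandermonde v * Co := by
    intro v
    ext i j
    have h1 : Q v y i j = (q j).eval (v i) := by
      unfold Q
      rw [Matrix.of_apply, hq]
      simp only
      rw [Polynomial.eval_prod]
      simp
    rw [h1, Polynomial.eval_eq_sum_range' (hdeg j), Matrix.mul_apply,
      ← Fin.sum_univ_eq_sum_range (fun k => (q j).coeff k * v i ^ k) m]
    refine sum_congr rfl fun k _ => ?_
    rw [vandermonde_apply, hCo, Matrix.of_apply, mul_comm]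
  have hd : (Q y y).det = ∏ j, ∏ j' ∈ univ.erase j, (y j - y j') := by
    have : Q y y = Matrix.diagonal fun j => ∏ j' ∈ univ.erase j, (y j - y j') := by
      ext i j
      unfold Q
      rw [Matrix.of_apply, Matrix.diagonal_apply]
      split_ifs with h
      · rw [h]
      · exact prod_eq_zero (mem_erase.2 ⟨h, mem_univ _⟩) (sub_self _)
    rw [this, det_diagonal]
  have hV : (vandermonde y).det ≠ 0 := det_vandermonde_ne_zero_iff.2 hy
  have hco : Co.det = (eps m : R) * (vandermonde y).det := by
    have h1 : (vandermonde y).det * Co.det =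
        (vandermonde y).det * ((eps m : R) * (vandermonde y).det) := by
      rw [← det_mul, ← hfac y, hd, prod_off]
      ring
    exact mul_left_cancel₀ hV h1
  rw [hfac x, det_mul, hco]
  ring

theorem dom {R : Type} [CommRing R] [IsDomain R] {m : ℕ} (x y : Fin m → R)
    (hy : Function.Injective y) :
    (∏ i, ∏ j, if i < j then (x i - x j) * (y i - y j) else 1) =
    (eps m : R) * ∑ σ : Equiv.Perm (Fin m), (((Equiv.Perm.sign σ : ℤˣ) : ℤ) : R) *
      ∏ i, ∏ j ∈ univ.erase (σ i), (x i - y j) := by
  rw [← det_Q, det_Q_dom x y hy]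
  have h1 : (eps m : R) * (eps m : R) = 1 := by exact_mod_cast congrArg (Int.cast : ℤ → R) (eps_sq m)
  have h2 : (∏ i, ∏ j, if i < j then (x i - x j) * (y i - y j) else 1) =
      (vandermonde x).det * (vandermonde y).det := by
    rw [det_vandermonde, det_vandermonde, ← prod_mul_distrib]
    refine prod_congr rfl fun i _ => ?_
    rw [← prod_mul_distrib, ← prod_filter]
    have : (univ.filter fun j => i < j) = Ioi i := by ext k; simp
    rw [this]
    refine prod_congr rfl fun j _ => ?_
    ring
  rw [h2]
  calc (vandermonde x).det * (vandermonde y).det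
      = 1 * ((vandermonde x).det * (vandermonde y).det) := by rw [one_mul]
    _ = ((eps m : R) * (eps m : R)) * ((vandermonde x).det * (vandermonde y).det) := by rw [h1]
    _ = _ := by ring

theorem main : Pool.Agent.N343.LT.S_CAU := by
  intro m
  refine ⟨eps m, eps_or m, ?_⟩
  intro R _ x y
  have h := dom (R := MvPolynomial (Fin m ⊕ Fin m) ℤ) (fun i => MvPolynomial.X (Sum.inl i))
    (fun i => MvPolynomial.X (Sum.inr i)) (by
      intro a b hab
      have := MvPolynomial.X_injective hab
      exact Sum.inr_injective this)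
  set φ : MvPolynomial (Fin m ⊕ Fin m) ℤ →+* R :=
    MvPolynomial.eval₂Hom (Int.castRingHom R) (Sum.elim x y) with hφ
  have hl : ∀ i, φ (MvPolynomial.X (Sum.inl i)) = x i := by
    intro i; rw [hφ, MvPolynomial.eval₂Hom_X']; rfl
  have hr : ∀ i, φ (MvPolynomial.X (Sum.inr i)) = y i := by
    intro i; rw [hφ, MvPolynomial.eval₂Hom_X']; rfl
  have h' := congrArg φ h
  simp only [map_prod, map_mul, map_sum, apply_ite φ, map_sub, map_one, hl, hr, map_intCast] at h'
  exact h'

end Pool.Agent.N46.LT.CAU
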