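import Pool.Agent.N343.LT.Stm

/-!
# Project LT, part KEY (helper46): exchanging `m` variables
-/

set_option autoImplicit false

namespace Pool.Agent.N46.LT.KEY

open Finset Matrix Pool.Agent.N343.LT

/-- the sign -/
def sg (m : ℕ) : ℤ := ∏ i : Fin m, ∏ _j ∈ Ioi i, (-1 : ℤ)

theorem sg_unit (m : ℕ) : IsUnit (sg m) := by
  unfold sg
  simp only [prod_const]
  rw [IsUnit.prod_univ_iff]
  intro i
  exact (isUnit_one.neg).pow _

/-- the Vandermonde product in the other order -/
def vz {R : Type} [CommRing R] {n : ℕ} (z : Fin n → R) : R :=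
  ∏ i, ∏ j, if i < j then (z i - z j) else 1

theorem det_vand {R : Type} [CommRing R] {n : ℕ} (z : Fin n → R) :
    (vandermonde z).det = (sg n : R) * vz z := by
  rw [det_vandermonde]
  unfold sg vz
  push_cast
  rw [← prod_mul_distrib]
  refine prod_congr rfl fun i _ => ?_
  rw [← prod_filter]
  have : (univ.filter fun j => i < j) = Ioi i := by ext k; simp
  rw [this, ← prod_mul_distrib]
  refine prod_congr rfl fun j _ => ?_
  ring

/-- the sign of a product of differences -/
def sm (m l : ℕ) : ℤ := ∏ _a : Fin m, ∏ _b : Fin l, (-1 : ℤ)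

theorem sm_unit (m l : ℕ) : IsUnit (sm m l) := by
  unfold sm
  simp only [prod_const]
  exact ((isUnit_one.neg).pow _).pow _

theorem prod_flip {R : Type} [CommRing R] {m l : ℕ} (a : Fin m → R) (b : Fin l → R) :
    ∏ i, ∏ j, (b j - a i) = (sm m l : R) * ∏ i, ∏ j, (a i - b j) := by
  unfold sm
  push_cast
  rw [← prod_mul_distrib]
  refine prod_congr rfl fun i _ => ?_
  rw [← prod_mul_distrib]
  refine prod_congr rfl fun j _ => ?_
  ring

section
variable {p : ℕ} [Fact p.Prime] {V : Type}

/-- the source polynomial -/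
noncomputable def TT {m l : ℕ} (x u : Fin m → V) (y : Fin l → V) (W : Finset V) (M : V → ℕ) :
    MvPolynomial V (ZMod p) :=
  vd (ZMod p) u * vd (ZMod p) y * (∏ a, ∏ b, (MvPolynomial.X (x a) - MvPolynomial.X (y b))) *
        (∏ a, ∏ w ∈ W, (MvPolynomial.X (u a) - MvPolynomial.X w) ^ M w)

/-- the polynomial with the roots `W` -/
noncomputable def gg (p : ℕ) [Fact p.Prime] (W : Finset V) (M : V → ℕ) :
    Polynomial (MvPolynomial V (ZMod p)) :=
  ∏ w ∈ W, (Polynomial.X - Polynomial.C (MvPolynomial.X w)) ^ M w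

theorem gg_eval (W : Finset V) (M : V → ℕ) (t : MvPolynomial V (ZMod p)) :
    (gg p W M).eval t = ∏ w ∈ W, (t - MvPolynomial.X w) ^ M w := by
  unfold gg
  rw [Polynomial.eval_prod]
  simp

theorem gg_deg (W : Finset V) (M : V → ℕ) : (gg p W M).natDegree = ∑ w ∈ W, M w := by
  unfold gg
  rw [Polynomial.natDegree_prod_of_monic _ _ fun i _ => (Polynomial.monic_X_sub_C _).pow _]
  refine sum_congr rfl fun w _ => ?_
  rw [(Polynomial.monic_X_sub_C _).natDegree_pow, Polynomial.natDegree_X_sub_C, mul_one]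

theorem rename_vd {n : ℕ} (σ : V → V) (z : Fin n → V) :
    MvPolynomial.rename σ (vd (ZMod p) z) = vz fun i => MvPolynomial.X (σ (z i)) := by
  unfold vd vz
  simp only [map_prod, apply_ite (MvPolynomial.rename σ), map_sub, map_one, MvPolynomial.rename_X]

theorem vd_eq {n : ℕ} (z : Fin n → V) :
    vd (ZMod p) z = vz fun i => (MvPolynomial.X (z i) : MvPolynomial V (ZMod p)) := rfl

end

theorem main (hLAP : S_LAP) (hRES : S_RES) : S_KEY := by
  classical
  intro p _ V m l x u y W M hml hinj hW hM
  set R := MvPolynomial V (ZMod p) with hR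
  -- the embedding
  have hinj2 : Function.Injective (Sum.elim u y) := by
    intro a b hab
    have := @hinj (Sum.inr a) (Sum.inr b) hab
    exact Sum.inr_injective this
  have hxy : Function.Injective (Sum.elim x y) := by
    intro a b hab
    have h : Sum.elim x (Sum.elim u y) (Sum.map id Sum.inr a) =
        Sum.elim x (Sum.elim u y) (Sum.map id Sum.inr b) := by
      rcases a with a | a <;> rcases b with b | b <;> exact hab
    have := hinj h
    exact (Sum.map_injective.2 ⟨Function.injective_id, Sum.inr_injective⟩) this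
  set ι : Fin m ⊕ Fin l ↪ V := ⟨Sum.elim u y, hinj2⟩ with hι
  have hrange : Set.range ι = Set.range u ∪ Set.range y := Set.Sum.elim_range u y
  have hxr : ∀ a, x a ∉ Set.range ι := by
    rintro a ⟨b, hb⟩
    have : Sum.elim x (Sum.elim u y) (Sum.inl a) = Sum.elim x (Sum.elim u y) (Sum.inr b) := hb.symm
    have := hinj this
    exact absurd this (by simp)
  have hWr : ∀ w ∈ W, w ∉ Set.range ι := by
    intro w hw h
    rw [hrange] at h
    rcases h with h | h
    · exact (hW w hw).1 h
    · exact (hW w hw).2 h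
  -- the data
  set v : Fin m ⊕ Fin l → R := fun i => MvPolynomial.X (ι i) with hv
  set g : Polynomial R := gg p W M with hg
  have hgd : g.natDegree ≤ l := by rw [hg, gg_deg]; exact hM
  have hge : ∀ t : R, g.eval t = ∏ w ∈ W, (t - MvPolynomial.X w) ^ M w := fun t => gg_eval W M t
  set xx : Fin m → R := fun a => MvPolynomial.X (x a) with hxx
  have hve : v = Sum.elim (fun a => MvPolynomial.X (u a)) (fun b => MvPolynomial.X (y b)) := by
    funext i
    rcases i with i | i <;> rfl
  set M0 := RM xx g v with hM0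
  set s : ℤ := sg m * sg l * sm m l with hs
  have hsu : IsUnit s := ((sg_unit m).mul (sg_unit l)).mul (sm_unit m l)
  -- the determinant
  have hdet : M0.det = (s : R) * (vd (ZMod p) u * vd (ZMod p) y *
      (∏ a, ∏ b, (MvPolynomial.X (u a) - MvPolynomial.X (y b))) *
      (∏ a, ∏ w ∈ W, (MvPolynomial.X (x a) - MvPolynomial.X w) ^ M w)) := by
    have h := hRES R m l xx (fun a => MvPolynomial.X (u a)) (fun b => MvPolynomial.X (y b)) g hgd
      (by
        have : Sum.elim xx (fun b => (MvPolynomial.X (y b) : R)) =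
            fun i => MvPolynomial.X (Sum.elim x y i) := by
          funext i
          rcases i with i | i <;> rfl
        rw [this]
        exact MvPolynomial.X_injective.comp hxy)
    rw [hM0, hve, h, det_vand, det_vand, prod_flip, hs]
    simp only [hge, vd_eq, hxx]
    push_cast
    ring
  -- the summands
  have hterm : ∀ τ : Equiv.Perm (Fin m ⊕ Fin l),
      (M0.submatrix (fun a => τ (Sum.inl a)) Sum.inl).det *
      (M0.submatrix (fun b => τ (Sum.inr b)) Sum.inr).det =
      (s : R) * MvPolynomial.rename (τ.viaEmbedding ι) (TT x u y W M) := by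
    intro τ
    have h1 : (M0.submatrix (fun a => τ (Sum.inl a)) Sum.inl).det =
        (∏ a, g.eval (v (τ (Sum.inl a)))) * (vandermonde fun a => v (τ (Sum.inl a))).det := by
      rw [← det_mul_column]
      rfl
    have h2 : (M0.submatrix (fun b => τ (Sum.inr b)) Sum.inr).det =
        (∏ b, ∏ c, (v (τ (Sum.inr b)) - xx c)) * (vandermonde fun b => v (τ (Sum.inr b))).det := by
      rw [← det_mul_column]
      rfl
    have h3 : ∏ b, ∏ c, (v (τ (Sum.inr b)) - xx c) =
        (sm m l : R) * ∏ a, ∏ b, (xx a - v (τ (Sum.inr b))) := by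
      rw [prod_comm]
      exact prod_flip xx fun b => v (τ (Sum.inr b))
    have hu : ∀ a, (MvPolynomial.X ((τ.viaEmbedding ι) (u a)) : R) = v (τ (Sum.inl a)) := by
      intro a
      have : (τ.viaEmbedding ι) (ι (Sum.inl a)) = ι (τ (Sum.inl a)) :=
        Equiv.Perm.viaEmbedding_apply _ _ _
      rw [hv]
      simp only
      rw [← this]
      rfl
    have hy : ∀ b, (MvPolynomial.X ((τ.viaEmbedding ι) (y b)) : R) = v (τ (Sum.inr b)) := by
      intro b
      have : (τ.viaEmbedding ι) (ι (Sum.inr b)) = ι (τ (Sum.inr b)) :=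
        Equiv.Perm.viaEmbedding_apply _ _ _
      rw [hv]
      simp only
      rw [← this]
      rfl
    have hx : ∀ a, (τ.viaEmbedding ι) (x a) = x a := fun a =>
      Equiv.Perm.viaEmbedding_apply_of_notMem _ _ _ (hxr a)
    have hw : ∀ w ∈ W, (τ.viaEmbedding ι) w = w := fun w hw =>
      Equiv.Perm.viaEmbedding_apply_of_notMem _ _ _ (hWr w hw)
    have h4 : MvPolynomial.rename (τ.viaEmbedding ι) (TT x u y W M) =
        vz (fun a => v (τ (Sum.inl a))) * vz (fun b => v (τ (Sum.inr b))) *
        (∏ a, ∏ b, (xx a - v (τ (Sum.inr b)))) *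
        ∏ a, g.eval (v (τ (Sum.inl a))) := by
      unfold TT
      rw [map_mul, map_mul, map_mul, rename_vd, rename_vd]
      simp only [map_prod, map_sub, map_pow, MvPolynomial.rename_X, hu, hy, hx, hge, hxx]
      congr 1
      refine prod_congr rfl fun a _ => prod_congr rfl fun w hw' => ?_
      rw [hw w hw']
    rw [h1, h2, h3, h4, det_vand, det_vand, hs]
    push_cast
    ring
  -- the sum
  have hL := hLAP R (Fin m) (Fin l) M0
  rw [Fintype.card_fin, Fintype.card_fin] at hL
  set Target := vd (ZMod p) u * vd (ZMod p) y *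
      (∏ a, ∏ b, (MvPolynomial.X (u a) - MvPolynomial.X (y b))) *
      (∏ a, ∏ w ∈ W, (MvPolynomial.X (x a) - MvPolynomial.X w) ^ M w) with hTar
  have hsR : IsUnit (s : R) := hsu.map (Int.castRingHom R)
  have hsum : ∑ τ : Equiv.Perm (Fin m ⊕ Fin l), (((Equiv.Perm.sign τ : ℤˣ) : ℤ) : R) *
      MvPolynomial.rename (τ.viaEmbedding ι) (TT x u y W M) =
      ((m.factorial * l.factorial : ℕ) : R) * Target := by
    apply hsR.mul_left_cancel
    have e1 : (s : R) * ∑ τ : Equiv.Perm (Fin m ⊕ Fin l), (((Equiv.Perm.sign τ : ℤˣ) : ℤ) : R) *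
      MvPolynomial.rename (τ.viaEmbedding ι) (TT x u y W M) =
      ∑ τ : Equiv.Perm (Fin m ⊕ Fin l), (((Equiv.Perm.sign τ : ℤˣ) : ℤ) : R) *
        (M0.submatrix (fun a => τ (Sum.inl a)) Sum.inl).det *
        (M0.submatrix (fun b => τ (Sum.inr b)) Sum.inr).det := by
      rw [mul_sum]
      refine sum_congr rfl fun τ _ => ?_
      rw [mul_assoc, hterm τ]
      ring
    rw [e1, hL, hdet]
    ring
  have hmem : ((m.factorial * l.factorial : ℕ) : R) * Target ∈
      WZ (ZMod p) (Set.range u ∪ Set.range y) (TT x u y W M) := by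
    rw [← hsum]
    refine Submodule.sum_mem _ fun τ _ => ?_
    have e : (((Equiv.Perm.sign τ : ℤˣ) : ℤ) : R) *
        MvPolynomial.rename (τ.viaEmbedding ι) (TT x u y W M) =
        (((Equiv.Perm.sign τ : ℤˣ) : ℤ) : ZMod p) •
          MvPolynomial.rename (τ.viaEmbedding ι) (TT x u y W M) := by
      rw [MvPolynomial.smul_eq_C_mul]
      simp
    rw [e]
    refine Submodule.smul_mem _ _ (Submodule.subset_span ⟨τ.viaEmbedding ι, fun w hw => ?_, rfl⟩)
    rw [← hrange] at hw
    exact Equiv.Perm.viaEmbedding_apply_of_notMem _ _ _ hw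
  have hne : ((m.factorial * l.factorial : ℕ) : ZMod p) ≠ 0 := by
    rw [Ne, ZMod.natCast_eq_zero_iff]
    intro hdvd
    have hp : p.Prime := Fact.out
    rcases hp.dvd_mul.1 hdvd with h | h
    · have := (hp.dvd_factorial).1 h; omega
    · have := (hp.dvd_factorial).1 h; omega
  have e2 : ((m.factorial * l.factorial : ℕ) : R) * Target =
      ((m.factorial * l.factorial : ℕ) : ZMod p) • Target := by
    rw [MvPolynomial.smul_eq_C_mul]
    simp
  rw [e2] at hmem
  exact (Submodule.smul_mem_iff _ hne).1 hmem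

end Pool.Agent.N46.LT.KEY
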